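import Mathlib
import Pool.Agent.W187.WQ.Fx2

/-!
# WQ-EXP: expansion of the integrals (project WQ of helper187)
-/

set_option autoImplicit false

open MeasureTheory Set
open Pool.Agent.W187.WP Pool.Agent.W187.WQ

namespace Pool.Agent.W462.WQ

theorem cont_U (m : ℕ) : Continuous (Umm m) := by
  unfold Umm
  fun_prop

theorem int_sum (lo hi : ℝ) (L : ℕ) (c : ℕ → ℝ) (f : ℕ → ℝ → ℝ) (hf : ∀ j, Continuous (f j)) :
    ∫ x in lo..hi, ∑ j ∈ Finset.range L, c j * f j x =
      ∑ j ∈ Finset.range L, c j * ∫ x in lo..hi, f j x := by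
  rw [intervalIntegral.integral_finsetSum]
  · exact Finset.sum_congr rfl fun j _ => intervalIntegral.integral_const_mul _ _
  · intro j _
    exact ((hf j).const_mul _).intervalIntegrable _ _

theorem cont_sum (L : ℕ) (c : ℕ → ℝ) (f : ℕ → ℝ → ℝ) (hf : ∀ j, Continuous (f j)) :
    Continuous fun x => ∑ j ∈ Finset.range L, c j * f j x :=
  continuous_finsetSum _ fun j _ => (hf j).const_mul _

theorem exp_ok : S_UI → S_EXP := by
  intro hUI m e k l Lr rk rl
  have hU := cont_U m
  refine ⟨?_, ?_, ?_⟩
  · have h1 : ∀ x : ℝ, yr m e k Lr rk x * ph e l x =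
        (∑ j ∈ Finset.range Lr, rk j * x ^ (2 * (e + (l + j)))) +
          x ^ (2 * (e + (k + l))) * Umm m x := by
      intro x
      unfold yr ph
      rw [add_mul, Finset.mul_sum, Finset.sum_mul]
      congr 1
      · refine Finset.sum_congr rfl fun j _ => ?_
        ring
      · ring
    simp only [h1]
    rw [intervalIntegral.integral_add, int_sum _ _ _ _ _ (fun j => by fun_prop),
      (hUI e m (k + l)).2.1]
    · congr 1
      refine Finset.sum_congr rfl fun j _ => ?_
      rw [(hUI e m (l + j)).1]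
    · exact (cont_sum _ _ _ (fun j => by fun_prop)).intervalIntegrable _ _
    · exact (by fun_prop : Continuous fun x : ℝ => x ^ (2 * (e + (k + l))) * Umm m x).intervalIntegrable _ _
  · have h1 : ∀ x : ℝ, yr m e k Lr rk x * yr m e l Lr rl x =
        ((x ^ (2 * (e + (k + l))) * Umm m x ^ 2 +
          (∑ j ∈ Finset.range Lr, rl j * (x ^ (2 * (e + (k + j))) * Umm m x))) +
          (∑ j ∈ Finset.range Lr, rk j * (x ^ (2 * (e + (l + j))) * Umm m x))) +
          ∑ j ∈ Finset.range Lr, rk j * (∑ i ∈ Finset.range Lr, rl i * x ^ (2 * (e + (j + i)))) := by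
      intro x
      have e1 : ∑ j ∈ Finset.range Lr, rl j * (x ^ (2 * (e + (k + j))) * Umm m x) =
          x ^ (2 * (e + k)) * Umm m x * ∑ j ∈ Finset.range Lr, rl j * (x ^ 2) ^ j := by
        rw [Finset.mul_sum]
        exact Finset.sum_congr rfl fun j _ => by ring
      have e2 : ∑ j ∈ Finset.range Lr, rk j * (x ^ (2 * (e + (l + j))) * Umm m x) =
          x ^ (2 * (e + l)) * Umm m x * ∑ j ∈ Finset.range Lr, rk j * (x ^ 2) ^ j := by
        rw [Finset.mul_sum]
        exact Finset.sum_congr rfl fun j _ => by ring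
      have e3 : ∑ j ∈ Finset.range Lr, rk j *
          (∑ i ∈ Finset.range Lr, rl i * x ^ (2 * (e + (j + i)))) =
          x ^ (2 * e) * ((∑ j ∈ Finset.range Lr, rk j * (x ^ 2) ^ j) *
            ∑ i ∈ Finset.range Lr, rl i * (x ^ 2) ^ i) := by
        rw [Finset.sum_mul, Finset.mul_sum]
        refine Finset.sum_congr rfl fun j _ => ?_
        rw [Finset.mul_sum, Finset.mul_sum, Finset.mul_sum]
        exact Finset.sum_congr rfl fun i _ => by ring
      rw [e1, e2, e3]
      unfold yr ph
      ring
    have c1 : Continuous fun x : ℝ => x ^ (2 * (e + (k + l))) * Umm m x ^ 2 := by fun_prop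
    have c2 : ∀ n j : ℕ, Continuous fun x : ℝ => x ^ (2 * (e + (n + j))) * Umm m x := by
      intro n j; fun_prop
    have c3 : ∀ j : ℕ, Continuous fun x : ℝ =>
        (∑ i ∈ Finset.range Lr, rl i * x ^ (2 * (e + (j + i)))) := fun j =>
      cont_sum _ _ _ (fun i => by fun_prop)
    simp only [h1]
    rw [intervalIntegral.integral_add, intervalIntegral.integral_add,
      intervalIntegral.integral_add, int_sum _ _ _ _ _ (c2 k), int_sum _ _ _ _ _ (c2 l),
      int_sum _ _ _ _ _ c3, (hUI e m (k + l)).2.2]
    · congr 1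
      · congr 1
        · congr 1
          refine Finset.sum_congr rfl fun j _ => ?_
          rw [(hUI e m (k + j)).2.1]
        · refine Finset.sum_congr rfl fun j _ => ?_
          rw [(hUI e m (l + j)).2.1]
      · refine Finset.sum_congr rfl fun j _ => ?_
        rw [int_sum _ _ _ _ _ (fun i => by fun_prop)]
        congr 1
        refine Finset.sum_congr rfl fun i _ => ?_
        rw [(hUI e m (j + i)).1]
    · exact c1.intervalIntegrable _ _
    · exact (cont_sum _ _ _ (c2 k)).intervalIntegrable _ _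
    · exact (c1.add (cont_sum _ _ _ (c2 k))).intervalIntegrable _ _
    · exact (cont_sum _ _ _ (c2 l)).intervalIntegrable _ _
    · exact ((c1.add (cont_sum _ _ _ (c2 k))).add (cont_sum _ _ _ (c2 l))).intervalIntegrable _ _
    · exact (cont_sum _ _ _ c3).intervalIntegrable _ _
  · intro s lo hi N
    have h1 : ∀ x : ℝ, (x - s) ^ N * yr m e l Lr rl x =
        (∑ j ∈ Finset.range Lr, rl j * ((x - s) ^ N * x ^ (e + 2 * j))) +
          (x - s) ^ N * x ^ (e + 2 * l) * Umm m x := by
      intro x
      unfold yr ph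
      rw [mul_add, Finset.mul_sum, Finset.mul_sum]
      congr 1
      · refine Finset.sum_congr rfl fun j _ => ?_
        ring
      · ring
    simp only [h1]
    rw [intervalIntegral.integral_add, int_sum _ _ _ _ _ (fun j => by fun_prop)]
    · rfl
    · exact (cont_sum _ _ _ (fun j => by fun_prop)).intervalIntegrable _ _
    · exact (by fun_prop : Continuous fun x : ℝ =>
        (x - s) ^ N * x ^ (e + 2 * l) * Umm m x).intervalIntegrable _ _

end Pool.Agent.W462.WQ
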